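import Pool.Agent.Run7.h700.R2.Sys
import Pool.Agent.N858.PB.Pull

set_option autoImplicit false

open Finset Polynomial Pool.Agent.W432.PC Pool.Agent.Y227.SS Pool.Agent.R340.SY Pool.Agent.R927
open Pool.Agent.W77.IM (CoordRing)
open Pool.Agent.N858 Pool.Agent.N858.PB Pool.Agent.Run7.h700.R2

/-!
# Flat bundles on curves which contain the pull-back of an irreducible system of rank two with any
# number of singular points: the exceptional families of exponents

Let `C` be a curve over a finitely generated field of characteristic zero with a finite map
`x : C → ℙ¹`, and let `(E, ∇)` be a flat bundle on `C` (or on an open part of `C`) whose generic fibre
contains the pull-back of an irreducible Fuchsian system `d/dx - ∑ j, A j / (x - α j)` of rank two on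
`ℙ¹` with rational exponents. (If `x` is ramified to orders divisible by the denominators of the
differences over the singular points, the pull-back of the system is, up to a twist by a connection of
rank one, a flat bundle without singularities, so `C` may be a proper curve of any large genus.) It is
not assumed that `E` or the pull-back is irreducible, and the accessory parameters are arbitrary.

Hypothesis (H) fails for `(E, ∇)`, apart from two explicit kinds of families of exponents of
codimension two and from finitely many families of codimension three or more.

Proof. If the `p`-curvature of `E` vanishes at `𝔪`, that of the system vanishes at `𝔪`, for almost all `𝔪`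
(`R927/PB2`), so we have a theorem on systems: if the `p`-curvatures vanish for most primes then all
the conjugates of the exponents are the weights of stable parabolic bundles on the projective line (a
starting result). For line subbundles this says that for all integers `e x`, whose sum has the wrong
parity, the sum of the distances of the differences of the exponents to the `e x` is greater than one.
The points of the torus all whose conjugates have this property are in finitely many torsion cosets, in
which the conjugates of the points are dense; we classify the cosets of codimension one and two which
avoid the balls given by these inequalities. For systems there is the starting theorem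
`MP_ba03d2_ag.RankTwoFamilies`, proved with other arguments; here the relations do not involve the
points with integral differences, and we have an integral sum of exponents in the first case.
-/

namespace Pool.Agent.Results.MP_0707f5_ag.PullbackFamilies

universe u v w

/-- For every number `n` of finite singular points there are `ε > 0` and `M` with the following property.

Let `R` be a domain of characteristic zero, of finite type over `ℤ`, let `F` be a field containing
`R` (the function field of a curve) with an `R`-linear derivation `δ` and `δ x = 1`, let `V` be a vector
space over `F` with a connection `∇`, let `T ∈ R[x]` be nonzero and let `E ⊆ V` be a finitely generated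
`R[x, 1/T]`-module which is stable under `∇` and generates `V` over the rational functions of `x`
(`IsModel`; a flat bundle on the part `T ≠ 0` of the curve, spread out over `Spec R`). Assume that `V`
contains the pull-back (`HasPullback`) of the system `d/dx - ∑ j, A j / (x - α j)` of rank two, where
`α 0, ..., α (n - 1)` are elements of `R` with invertible differences, that this system is irreducible
over every field containing `R`, and that it has rational exponents `expo lam phi` (the eigenvalues
`lam j l` of `A j`, and the negatives of the eigenvalues `phi l` of `∑ j, A j`), with common
denominator `N`. Then one of the following holds.

(a) `TwoBlocks`: the sum of one exponent at every singular point, suitably chosen, is an integer, and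
the points with nonintegral differences of the exponents are divided into two nonempty sets, such that
the sums of the differences of the chosen and the other exponent over these sets are integers.

(b) `TwoHalves`: there are two disjoint nonempty sets of points with nonintegral differences of the
exponents, together not all of them, such that the sums of the differences, with suitable signs, over
the two sets are equal to `1/2` modulo the integers.

(c) `ThreeRelations`: the nonintegral differences satisfy three linearly independent relations
modulo the integers with integral coefficients of absolute value at most `M`.

(d) There are a set of at least `ε * φ(N)` residue classes modulo `N`, prime to `N`, and a nonzero `g`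
in `R` such that the `p`-curvature of `E` is nonzero at all the closed points of `Spec R[1/g]` whose
residue characteristic is a large prime in one of these classes (`BadModelClasses`). In particular (H)
fails for `(E, ∇)`. -/
theorem result (n : ℕ) : ∃ (ε : ℝ) (M : ℕ), 0 < ε ∧
    ∀ (R : Type u) [CommRing R] [IsDomain R] [CharZero R] [Algebra.FiniteType ℤ R]
      (F : Type v) [Field F] [Algebra R F] (δ : Derivation R F F) (x : F)
      (V : Type w) [AddCommGroup V] [Module F V] (nabla : V →+ V) (T : R[X])
      (E : Submodule (CoordRing x T R) V) (α : Fin n → R)
      (A : Fin n → Matrix (Fin 2) (Fin 2) R) (v : Fin 2 → V)
      (lam : Fin n → Fin 2 → ℚ) (phi : Fin 2 → ℚ) (N : ℕ),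
      Function.Injective (algebraMap R F) → δ x = 1 → T ≠ 0 → IsModel x T nabla E →
      HasPullback α A δ x nabla v →
      (∀ i j, i ≠ j → IsUnit (α i - α j)) → AbsIrreducible α A →
      (∀ j, HasExponents (A j) (lam j)) → HasExponents (∑ j, A j) phi →
      0 < N → (∀ j l, ∃ m : ℤ, (N : ℚ) * lam j l = m) → (∀ l, ∃ m : ℤ, (N : ℚ) * phi l = m) →
      (TwoBlocks (expo lam phi) ∨ TwoHalves (expo lam phi) ∨ ThreeRelations (expo lam phi) M) ∨
        (BadModelClasses nabla E N ε ∧ ¬ HypH nabla E) := by
  obtain ⟨ε, M, hε, h⟩ := sys_two.{u} n
  refine ⟨ε, M, hε, ?_⟩
  intro R _ _ _ _ F _ _ δ x V _ _ nabla T E α A v lam phi N hRF hx hT hE hpb hα hirr hlam hphi hN
    hN1 hN2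
  exact pull hpb hRF hx hT hE (h R α A lam phi N hα hlam hphi hN hN1 hN2 hirr)

end Pool.Agent.Results.MP_0707f5_ag.PullbackFamilies
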