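import Pool.Agent.Run7.h700.PC.GenericSys
import Pool.Agent.Run7.h700.PC.SysEps
import Pool.Agent.N858.PB.Pull

set_option autoImplicit false

open Finset Polynomial Pool.Agent.W432.TC Pool.Agent.W432.PC Pool.Agent.R927 Pool.Agent.N858.PB
open Pool.Agent.Y227.SS Pool.Agent.R340.SY Pool.Agent.Run7.h700.PC
open Pool.Agent.W77.IM (CoordRing)

/-!
# Flat bundles on curves which contain the pull-back of a system of any rank whose exponents are
# generic at all the singular points but two

Let `C` be a curve over a finitely generated field of characteristic zero with a finite map
`x : C → ℙ¹`, and let `(E, ∇)` be a flat bundle on `C` (or on an open part of `C`) whose generic fibre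
contains the pull-back of a Fuchsian system `d/dx - ∑ j, A j / (x - α j)` of any rank `r ≥ 2` on `ℙ¹`
(reducible or not) with rational exponents and arbitrary accessory parameters. (If `x` is ramified to
orders divisible by the denominators of the differences over the singular points, the pull-back of the
system is, up to a twist by a connection of rank one, a flat bundle without singularities, so `C` may
be a proper curve of any large genus.) It is not assumed that `E` or the pull-back is irreducible.
Assume that the exponents at all the singular points but two are generic: their integral linear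
combinations with bounded coefficients have denominators with prime factors in a set `S` of large
primes, while the exponents at the two other points have denominators without prime factors in `S`.
**Then the hypothesis (H) of the isomonodromic form of the `p`-curvature conjecture fails for
`(E, ∇)`, the `p`-curvatures being nonzero for a positive proportion of the primes, unless the
exponents of the system at both of the two points are `c + j / r`, `j = 0, ..., r - 1`, modulo the
integers.** This is sharp: if they are of this form, there are systems with finite monodromy for
arbitrary rational exponents at the other points, subject to the condition on the sum (direct images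
under the cyclic covering of degree `r`).

Proof. If the `p`-curvature of `E` vanishes at `𝔪`, that of the system vanishes at `𝔪`, for almost all `𝔪`
(`R927/PB2`), so our theorem on systems (`MP_ba03d2_ag.GenericExponents`) applies.
-/

namespace Pool.Agent.Results.MP_0707f5_ag.PullbackGenericExponents

universe u v w

/-- For every number `n` of finite singular points and every rank `r ≥ 2` there are an `ε > 0` and a
number `B` with the following property.

Let `R` be a domain of characteristic zero, of finite type over `ℤ`, let `F` be a field containing
`R` (the function field of a curve) with an `R`-linear derivation `δ` and `δ x = 1`, let `V` be a vector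
space over `F` with a connection `∇`, let `T ∈ R[x]` be nonzero and let `E ⊆ V` be a finitely generated
`R[x, 1/T]`-module which is stable under `∇` and generates `V` over the rational functions of `x`
(`IsModel`; a flat bundle on the part `T ≠ 0` of the curve, spread out over `Spec R`). Assume that `V`
contains the pull-back (`HasPullback`) of the system `d/dx - ∑ j, A j / (x - α j)` of rank `r`, where
`α 0, ..., α (n - 1)` are elements of `R` with invertible differences, and that this system has rational
exponents `e x l = expo lam phi x l` at the `n + 1` points `x` (the eigenvalues `lam j l` of `A j` at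
`some j`, that is `α j`, and the negatives of the eigenvalues `phi l` of `∑ j, A j` at `none`, that is
infinity). Let `S` be a set of primes greater than `B` and let `Z` be a nonempty set of singular points,
such that no denominator of an exponent at a point outside `Z` and no denominator of the sum of the
exponents at a point in `Z` has a prime factor in `S`. Assume that the exponents at the points in `Z` are
generic (`GenericAt`): for integers `μ x l`, `x ∈ Z`, of absolute value at most `B`, with sum zero for
every `x` and not all zero, the denominator of `∑ μ x l * e x l` has a prime factor in `S`.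

Then one of the following holds.

(1) For every common denominator `N` of the exponents there are a set of at least `ε φ(N)` residue
classes modulo `N`, prime to `N`, and a nonzero `g` in `R` such that the `p`-curvature of `E` is nonzero
at all the closed points of `Spec R[1/g]` whose residue characteristic is a large prime in one of these
classes (`BadModelClasses`); and (H) fails for `(E, ∇)`.

(2) The number of the triples `(x, k, l)`, `x ∉ Z`, such that `e x k - e x l` is not an integer is at
least `2 r (r - 1)`; and if `z₁ ≠ z₂` and at all the points outside `Z`, except possibly `z₁` and `z₂`, the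
differences of the exponents are integers, then `z₁` and `z₂` are not in `Z` and the exponents at `z₁` and
those at `z₂` have differences which are multiples of `1 / r` and are not integers (`FullCoset`): they
are `c + j / r`, `j = 0, ..., r - 1`, modulo the integers. -/
theorem result (n r : ℕ) (hr : 2 ≤ r) : ∃ (ε : ℝ) (B : ℕ), 0 < ε ∧
    ∀ (R : Type u) [CommRing R] [IsDomain R] [CharZero R] [Algebra.FiniteType ℤ R]
    (F : Type v) [Field F] [Algebra R F] (δ : Derivation R F F) (x : F)
    (V : Type w) [AddCommGroup V] [Module F V] (nabla : V →+ V) (T : R[X])
    (E : Submodule (CoordRing x T R) V) (α : Fin n → R)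
    (A : Fin n → Matrix (Fin r) (Fin r) R) (v : Fin r → V)
    (lam : Fin n → Fin r → ℚ) (phi : Fin r → ℚ),
    Function.Injective (algebraMap R F) → δ x = 1 → T ≠ 0 → IsModel x T nabla E →
    HasPullback α A δ x nabla v → (∀ i j, i ≠ j → IsUnit (α i - α j)) →
    (∀ j, HasExponents (A j) (lam j)) → HasExponents (∑ j, A j) phi →
    ∀ S : Set ℕ, (∀ p ∈ S, B < p) → ∀ Z : Finset (Option (Fin n)), Z.Nonempty →
    (∀ x, x ∉ Z → ∀ l, DenOut S (expo lam phi x l)) →
    (∀ x ∈ Z, DenOut S (∑ l, expo lam phi x l)) → GenericAt (expo lam phi) S B Z →
    ((∀ N : ℕ, 0 < N → (∀ j l, ∃ z : ℤ, (N : ℚ) * lam j l = z) →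
        (∀ l, ∃ z : ℤ, (N : ℚ) * phi l = z) → BadModelClasses nabla E N ε) ∧ ¬ HypH nabla E) ∨
    (2 * (r * (r - 1)) ≤ ∑ x ∈ Zᶜ, nonint (expo lam phi x) ∧
      ∀ z₁ z₂ : Option (Fin n), z₁ ≠ z₂ →
        (∀ x, x ∉ Z → x ≠ z₁ → x ≠ z₂ → ∀ k l, (expo lam phi x k - expo lam phi x l).den = 1) →
        z₁ ∉ Z ∧ FullCoset (expo lam phi z₁) ∧ z₂ ∉ Z ∧ FullCoset (expo lam phi z₂)) := by
  classical
  obtain ⟨ε, hε, hor⟩ := sys_or.{u} n r
  obtain ⟨B, hB⟩ := generic_concl n r
  refine ⟨ε, B, hε, ?_⟩
  intro R _ _ _ _ F _ _ δ x V _ _ nabla T E α A v lam phi hRF hx hT hE hpb hα hlam hphi S hS Z hZ
    hout htr hgen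
  rcases hor R α A lam phi hα hlam hphi with h | ⟨N, hN, hN1, hN2, hc⟩
  · left
    exact ⟨fun N hN h1 h2 => badModelClasses hpb hRF hx hT hE one_ne_zero (h.1 N hN h1 h2),
      fun hH => h.2 (hpb.condII hRF hx hT hE hH)⟩
  · right
    obtain ⟨-, h2, h3⟩ := hB lam phi N hN hN1 hN2 hc S hS Z hZ hout htr hgen
    refine ⟨h2, fun z₁ z₂ hz hT => ?_⟩
    rcases h3 z₁ z₂ hz hT with h | h
    · exact h
    · omega

end Pool.Agent.Results.MP_0707f5_ag.PullbackGenericExponents
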