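import Pool.Agent.Run7.h850.PC.Sys
import Pool.Agent.R927.PB3

set_option autoImplicit false

open Finset Polynomial Pool.Agent.W432.PC Pool.Agent.Y227.SS Pool.Agent.TH571.PCV Pool.Agent.R340.SY
open Pool.Agent.R927
open Pool.Agent.W77.IM (CoordRing)
open Run7.h850.PC

/-!
# Flat bundles on curves which contain the pull-back of a system with four non-integral points

For a rational number `q` with denominator `n` let `gam q` be the product of the numbers `-p` for the
primes `p` dividing `n`, divided by `n ^ 2`. Let `C` be a curve over a finitely generated field of
characteristic zero with a finite map `x : C → ℙ¹`, and let `(E, ∇)` be a flat bundle on `C` (or on an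
open part of `C`) whose generic fibre contains the pull-back of an irreducible Fuchsian system of rank
two with any number of singular points, four of which, `P i`, have non-integral differences `θ i` of the
exponents, while the differences are integers at the other ones. Let `s κ` be the sixteen sums of
exponents, one exponent for each singular point, and assume that none of them is an integer. The
denominators are arbitrary. (If `x` is ramified over the points `P i` to orders divisible by the
denominators of the `θ i`, the pull-back is, up to a twist by a connection of rank one and up to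
apparent singularities, a flat bundle on the proper curve `C`, of any large genus.) It is not assumed
that `E` or the pull-back is irreducible.

We show that the hypothesis (H) of the isomonodromic form of the `p`-curvature conjecture implies

`∑ gam (s κ) ≥ 4 ∑ gam (θ i) + 4 / 15`,

and in general the `p`-curvatures of `E` are nonzero for a proportion at least `3 / 74` times the
difference between the right side and the left side of the residue classes of primes. The starting
results on pull-backs with four points need, up to twist, a prime common denominator
(`PullbackFourPoints`), those for more general systems need denominators with only very large prime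
factors (`PullbackRoughDenominators`).

Proof. If the `p`-curvature of `E` vanishes at `𝔪`, that of the system vanishes at `𝔪`, for almost all `𝔪`
(a starting result). The inequality for systems is our theorem `FourPointInequality` under `MP_ba03d2_ag`.
-/

namespace Pool.Agent.Results.MP_0707f5_ag.PullbackInequality

universe u v w

/-- Let `R` be a domain of characteristic zero, of finite type over `ℤ`, let `F` be a field containing
`R` (the function field of a curve) with an `R`-linear derivation `δ` and `δ x = 1`, let `V` be a vector
space over `F` with a connection `∇`, let `T ∈ R[x]` be nonzero and let `E ⊆ V` be a finitely generated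
`R[x, 1/T]`-module which is stable under `∇` and generates `V` over the rational functions of `x`
(`IsModel`; a flat bundle on the part `T ≠ 0` of the curve, spread out over `Spec R`).

Assume that `V` contains the pull-back (`HasPullback`) of the system `d/dx - ∑ j, A j / (x - α j)`,
`j = 1, …, n`, of rank two, with `α j ∈ R` with invertible differences, which is irreducible over every
field containing `R` and has rational exponents `lam j l` (eigenvalues of `A j`) and `phi l` (eigenvalues
of `∑ j, A j`). The points are the finite ones, `some j`, and infinity, `none`. Let `P i` be four of them,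
such that the differences `diff lam phi x` of the two exponents at `x` are integers for all the other
points (`rest P`) but not for the `P i`. Assume that none of the sixteen sums `total lam phi P κ` of the
exponents number `κ i` at the points `P i` and of the exponents number `0` at the other points (exponents
at infinity: `- phi l`) is an integer. Let `excS lam phi P` be the sum of `gam` over the sixteen sums
minus four times the sum of `gam` over the four differences.

(1) For every common denominator `N` of the exponents there is a set `S` of at least
`3 / 74 * (4 / 15 - excS lam phi P) * φ(N)` residue classes modulo `N`, prime to `N`, and a nonzero `g`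
such that the `p`-curvature of `E` is nonzero at all the closed points of `Spec R[1/g]` whose residue
characteristic is a large prime in one of these classes (`BadModelFor`).

(2) If `excS lam phi P < 4 / 15`, or if the denominators of the four differences and of the sixteen
sums are all at least `121`, or if these denominators have no prime factors below `7` and none of the
four denominators of the differences is a prime number below `277`, then `excS lam phi P < 4 / 15` and
(H) fails. -/
theorem result {R : Type u} [CommRing R] [IsDomain R] [CharZero R] [Algebra.FiniteType ℤ R]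
    {F : Type v} [Field F] [Algebra R F] (hRF : Function.Injective (algebraMap R F))
    (δ : Derivation R F F) (x : F) (hx : δ x = 1) {V : Type w} [AddCommGroup V] [Module F V]
    (nabla : V →+ V) (T : R[X]) (hT : T ≠ 0) (E : Submodule (CoordRing x T R) V)
    (hE : IsModel x T nabla E) {n : ℕ} (α : Fin n → R) (hα : ∀ i j, i ≠ j → IsUnit (α i - α j))
    (A : Fin n → Matrix (Fin 2) (Fin 2) R) (v : Fin 2 → V) (hpb : HasPullback α A δ x nabla v)
    (lam : Fin n → Fin 2 → ℚ) (phi : Fin 2 → ℚ)
    (hlam : ∀ j, HasExponents (A j) (lam j)) (hphi : HasExponents (∑ j, A j) phi)
    (hirr : AbsIrreducible α A) (P : Fin 4 → Option (Fin n)) (hP : Function.Injective P)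
    (hint : ∀ x ∈ rest P, (diff lam phi x).den = 1) (hθ : ∀ i, (diff lam phi (P i)).den ≠ 1)
    (hs : ∀ κ, (total lam phi P κ).den ≠ 1) :
    (∀ N : ℕ, 0 < N → (∀ j l, ∃ m : ℤ, (N : ℚ) * lam j l = m) →
      (∀ l, ∃ m : ℤ, (N : ℚ) * phi l = m) →
      ∃ S : Finset (ZMod N)ˣ,
        3 / 74 * (4 / 15 - ((excS lam phi P : ℚ) : ℝ)) * (N.totient : ℝ) ≤ (S.card : ℝ) ∧
        BadModelFor nabla E N S) ∧
    (excS lam phi P < 4 / 15 ∨
      ((∀ κ, 121 ≤ (total lam phi P κ).den) ∧ ∀ i, 121 ≤ (diff lam phi (P i)).den) ∨
      ((∀ κ, Rough7 (total lam phi P κ)) ∧ (∀ i, Rough7 (diff lam phi (P i))) ∧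
        ∀ i, (diff lam phi (P i)).den.Prime → 277 ≤ (diff lam phi (P i)).den) →
      excS lam phi P < 4 / 15 ∧ ¬ HypH nabla E) := by
  refine ⟨fun N hN h1 h2 => ?_, fun h => ?_⟩
  · obtain ⟨S, g', P₀, hS, hg', hbad⟩ := sys_bad α hα A lam phi hlam hphi hirr hP hint hθ hs hN h1 h2
    obtain ⟨g, hg, htr⟩ := transfer hRF hx hpb T hT E hE.fg hE.span
    refine ⟨S, hS, g * g', mul_ne_zero hg hg', P₀, fun p hp hpP s hs hps 𝔪 h𝔪 hpm hm h4 => ?_⟩
    exact hbad p hp hpP ⟨s, hs, hps⟩ 𝔪 hpm (fun h3 => hm (𝔪.mul_mem_left _ h3))
      (htr 𝔪 (fun h3 => hm (𝔪.mul_mem_right _ h3)) h4)
  · have hE' : excS lam phi P < 4 / 15 := by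
      rcases h with h | ⟨h1, h2⟩ | ⟨h1, h2, h3⟩
      · exact h
      · exact excess_large h1 h2
      · exact excess_rough h1 hs h2 hθ h3
    obtain ⟨N, hN, h1, h2⟩ : ∃ N : ℕ, 0 < N ∧ (∀ j l, ∃ m : ℤ, (N : ℚ) * lam j l = m) ∧
        ∀ l, ∃ m : ℤ, (N : ℚ) * phi l = m := by
      have hden : ∀ (M : ℕ) (q : ℚ), q.den ∣ M → ∃ m : ℤ, (M : ℚ) * q = m := by
        rintro M q ⟨k, rfl⟩
        refine ⟨k * q.num, ?_⟩
        have := Rat.mul_den_eq_num q
        push_cast
        linear_combination (k : ℚ) * this
      refine ⟨(∏ j, ∏ l, (lam j l).den) * ∏ l, (phi l).den, ?_, fun j l => hden _ _ ?_,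
        fun l => hden _ _ ?_⟩
      · exact mul_pos (Finset.prod_pos fun j _ => Finset.prod_pos fun l _ => (lam j l).den_pos)
          (Finset.prod_pos fun l _ => (phi l).den_pos)
      · exact ((Finset.dvd_prod_of_mem (fun l => (lam j l).den) (Finset.mem_univ l)).trans
          (Finset.dvd_prod_of_mem (fun j => ∏ l, (lam j l).den) (Finset.mem_univ j))).mul_right _
      · exact (Finset.dvd_prod_of_mem (fun l => (phi l).den) (Finset.mem_univ l)).mul_left _
    exact ⟨hE', fun hH => sys_not_condII α hα A lam phi hlam hphi hirr hP hint hθ hs hE' hN h1 h2
      (hpb.condII hRF hx hT hE hH)⟩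

end Pool.Agent.Results.MP_0707f5_ag.PullbackInequality
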