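import Pool.Agent.Run7.h700.PC.SysEps
import Pool.Agent.N858.PB.Pull

set_option autoImplicit false

open Finset Polynomial Pool.Agent.W432.TC Pool.Agent.W432.PC Pool.Agent.R927 Pool.Agent.N858.PB
open Pool.Agent.Y227.SS Pool.Agent.R340.SY Pool.Agent.Run7.h700.PC
open Pool.Agent.W77.IM (CoordRing)

/-!
# Flat bundles on curves which contain the pull-back of a system of any rank whose exponent
# differences have denominators composed of large primes at all the singular points but one

Let `C` be a curve over a finitely generated field of characteristic zero with a finite map
`x : C → ℙ¹`, and let `(E, ∇)` be a flat bundle on `C` (or on an open part of `C`) whose generic fibre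
contains the pull-back of a Fuchsian system `d/dx - ∑ j, A j / (x - α j)` of any rank `r` on `ℙ¹`
(reducible or not) with rational exponents and arbitrary accessory parameters. (If `x` is ramified to
orders divisible by the denominators of the differences over the singular points, the pull-back of the
system is, up to a twist by a connection of rank one, a flat bundle without singularities, so `C` may
be a proper curve of any large genus.) It is not assumed that `E` or the pull-back is irreducible. Let
`S` be a set of large prime numbers; an `S`-number is a rational number such that all prime factors of its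
denominator are in `S`. **The hypothesis (H) of the isomonodromic form of the `p`-curvature conjecture
fails for `(E, ∇)`, the `p`-curvatures being nonzero for a positive proportion of the primes, if
the differences of the exponents of the system at all singular points but one are `S`-numbers and some
difference of the exponents at the last point is not an `S`-number**; here the primes in `S` are larger
than an explicit bound which depends on the number `s` of the other singular points and on the number
`K` of the different differences at these points. (H) also fails if the differences at all the points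
are `S`-numbers, but not the sums of exponents, one for each point.

Proof. If the `p`-curvature of `E` vanishes at `𝔪`, that of the system vanishes at `𝔪`, for almost all `𝔪`
(`R927/PB2`), so our theorem on systems (`MP_ba03d2_ag.LargePrimesSeparate`) applies.
-/

namespace Pool.Agent.Results.MP_0707f5_ag.PullbackLargePrimes

universe u v w

/-- For every number `n` of finite singular points and every rank `r ≥ 1` there is an `ε > 0` with the
following property.

Let `R` be a domain of characteristic zero, of finite type over `ℤ`, let `F` be a field containing
`R` (the function field of a curve) with an `R`-linear derivation `δ` and `δ x = 1`, let `V` be a vector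
space over `F` with a connection `∇`, let `T ∈ R[x]` be nonzero and let `E ⊆ V` be a finitely generated
`R[x, 1/T]`-module which is stable under `∇` and generates `V` over the rational functions of `x`
(`IsModel`; a flat bundle on the part `T ≠ 0` of the curve, spread out over `Spec R`). Assume that `V`
contains the pull-back (`HasPullback`) of the system `d/dx - ∑ j, A j / (x - α j)` of rank `r`, where
`α 0, ..., α (n - 1)` are elements of `R` with invertible differences, and that this system has rational
exponents `e x l = expo lam phi x l` at the `n + 1` points `x` (the eigenvalues `lam j l` of `A j` at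
`some j`, that is `α j`, and the negatives of the eigenvalues `phi l` of `∑ j, A j` at `none`, that is
infinity). Let `S` be a set of primes, let `κ x` be an index for every point `x` and let `V'` be a finite
set of rational numbers with denominators composed of primes in `S`. Let `Z` be a set of at most one
point such that at all the points `x` which are not in `Z` every difference `e x l - e x (κ x)` is an
integer or congruent to an element of `V'` modulo the integers (`DiffIn`), let `s` be the number of the
points outside `Z` with a nonintegral difference, and let the primes in `S` be greater than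
`(12 s + 7) ^ (#V' + 1)`. Assume that some difference `e z l - e z l'`, `z ∈ Z`, has a denominator with a
prime factor which is not in `S`; or that `Z` is empty and the denominator of the sum of the `e x (κ x)`
over all points has a prime factor which is not in `S`.

Then for every common denominator `N` of the exponents there are a set of at least `ε φ(N)` residue
classes modulo `N`, prime to `N`, and a nonzero `g` in `R` such that the `p`-curvature of `E` is nonzero
at all the closed points of `Spec R[1/g]` whose residue characteristic is a large prime in one of these
classes (`BadModelClasses`); and (H) fails for `(E, ∇)`. -/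
theorem result (n r : ℕ) (hr : 1 ≤ r) : ∃ ε : ℝ, 0 < ε ∧
    ∀ (R : Type u) [CommRing R] [IsDomain R] [CharZero R] [Algebra.FiniteType ℤ R]
    (F : Type v) [Field F] [Algebra R F] (δ : Derivation R F F) (x : F)
    (V : Type w) [AddCommGroup V] [Module F V] (nabla : V →+ V) (T : R[X])
    (E : Submodule (CoordRing x T R) V) (α : Fin n → R)
    (A : Fin n → Matrix (Fin r) (Fin r) R) (v : Fin r → V)
    (lam : Fin n → Fin r → ℚ) (phi : Fin r → ℚ),
    Function.Injective (algebraMap R F) → δ x = 1 → T ≠ 0 → IsModel x T nabla E →
    HasPullback α A δ x nabla v → (∀ i j, i ≠ j → IsUnit (α i - α j)) →
    (∀ j, HasExponents (A j) (lam j)) → HasExponents (∑ j, A j) phi →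
    ∀ (S : Set ℕ) (κ : Option (Fin n) → Fin r) (V' : Finset ℚ), (∀ q ∈ V', DenIn S q) →
    ∀ Z : Finset (Option (Fin n)), Z.card ≤ 1 → (∀ x, x ∉ Z → DiffIn lam phi κ V' x) →
    (∀ p ∈ S, (12 * (spread lam phi κ \ Z).card + 7) ^ (V'.card + 1) < p) →
    ((∃ z ∈ Z, ∃ l l', ¬ DenIn S (expo lam phi z l - expo lam phi z l')) ∨
      (Z = ∅ ∧ ¬ DenIn S (∑ x, expo lam phi x (κ x)))) →
    (∀ N : ℕ, 0 < N → (∀ j l, ∃ z : ℤ, (N : ℚ) * lam j l = z) →
      (∀ l, ∃ z : ℤ, (N : ℚ) * phi l = z) → BadModelClasses nabla E N ε) ∧ ¬ HypH nabla E := by
  classical
  obtain ⟨ε, hε, hor⟩ := sys_or.{u} n r
  refine ⟨ε, hε, ?_⟩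
  intro R _ _ _ _ F _ _ δ x V _ _ nabla T E α A v lam phi hRF hx hT hE hpb hα hlam hphi S κ V' hV Z
    hZ hd hS hz
  rcases hor R α A lam phi hα hlam hphi with h | ⟨N, hN, hN1, hN2, hc⟩
  · exact ⟨fun N hN h1 h2 => badModelClasses hpb hRF hx hT hE one_ne_zero (h.1 N hN h1 h2),
      fun hH => h.2 (hpb.condII hRF hx hT hE hH)⟩
  exfalso
  rcases hz with ⟨z, hzZ, l, l', hl⟩ | ⟨rfl, hz⟩
  · have hZz : Z = {z} := by
      refine (eq_singleton_iff_unique_mem.2 ⟨hzZ, fun y hy => ?_⟩)
      exact card_le_one.1 hZ y hy z hzZ
    subst hZz
    refine hl (abs_one hN (expo_den hN1 hN2) hc S z κ V' hV (fun x hxz => hd x (by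
      simpa using hxz)) ?_ l l')
    rwa [sdiff_singleton_eq_erase] at hS
  · refine hz (abs_sum hN (expo_den hN1 hN2) hr hc S κ V' hV (fun x => hd x (by simp)) ?_)
    rwa [sdiff_empty] at hS

end Pool.Agent.Results.MP_0707f5_ag.PullbackLargePrimes
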